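import Pool.Agent.PXE.Stmts

/-!
# Squad PXE, row TVB: three non-interacting variables lie in one factor
-/

set_option autoImplicit false

namespace Pool.Agent.PXE.H92

open Polynomial
open MvPolynomial (pderiv)

section ev

variable {K : Type} [Field K]

/-- evaluation at `X = a`, `Y = b`, `Z = c` -/
noncomputable def ev3 (a b c : K) : K[X][X][X] →+* K :=
  ((evalRingHom c).comp (evalRingHom (C b))).comp (evalRingHom (C (C a)))

theorem ev3_X (a b c : K) : ev3 a b c X = a := by
  simp [ev3]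

theorem ev3_Y (a b c : K) : ev3 a b c (C X) = b := by
  simp [ev3]

theorem ev3_Z (a b c : K) : ev3 a b c (C (C X)) = c := by
  simp [ev3]

theorem ev3_C (a b c κ : K) : ev3 a b c (C (C (C κ))) = κ := by
  simp [ev3]

/-- `u(X) + v(Y) + w(Z)` -/
noncomputable def uvw (u v w : K[X]) : K[X][X][X] :=
  u.map ((C : K[X] →+* K[X][X]).comp C) + C (v.map C + C w)

theorem ev3_uvw (a b c : K) (u v w : K[X]) :
    ev3 a b c (uvw u v w) = u.eval a + v.eval b + w.eval c := by
  have h1 : eval (C (C a)) (u.map ((C : K[X] →+* K[X][X]).comp C)) = C (C (u.eval a)) := by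
    rw [eval_map]
    exact eval₂_at_apply ((C : K[X] →+* K[X][X]).comp C) a
  have h2 : eval (C b) (v.map (C : K →+* K[X])) = C (v.eval b) := by
    rw [eval_map]
    exact eval₂_at_apply (C : K →+* K[X]) b
  unfold ev3 uvw
  simp only [RingHom.comp_apply, coe_evalRingHom, eval_add, eval_C, h1, h2]
  ring

end ev

section psi3

variable {E : Type} [Field E] {K : Type} [Field K] (ι : MvPolynomial ℕ E →+* K)

/-- the images of the variables -/
noncomputable def gv (i j l r : ℕ) : K[X][X][X] :=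
  if r = i then X else if r = j then C X else if r = l then C (C X) else
    C (C (C (ι (MvPolynomial.X r))))

/-- the map `ψ` -/
noncomputable def psi3 (i j l : ℕ) : MvPolynomial ℕ E →+* K[X][X][X] :=
  MvPolynomial.eval₂Hom (((C : K[X][X] →+* K[X][X][X]).comp
    ((C : K[X] →+* K[X][X]).comp C)).comp (ι.comp MvPolynomial.C)) (gv ι i j l)

theorem gv_i (i j l : ℕ) : gv ι i j l i = X := by
  unfold gv
  rw [if_pos rfl]

theorem gv_j {i j l : ℕ} (hij : i ≠ j) : gv ι i j l j = C X := by
  unfold gv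
  rw [if_neg hij.symm, if_pos rfl]

theorem gv_l {i j l : ℕ} (hil : i ≠ l) (hjl : j ≠ l) : gv ι i j l l = C (C X) := by
  unfold gv
  rw [if_neg hil.symm, if_neg hjl.symm, if_pos rfl]

theorem gv_r {i j l r : ℕ} (hi : r ≠ i) (hj : r ≠ j) (hl : r ≠ l) : gv ι i j l r =
    C (C (C (ι (MvPolynomial.X r)))) := by
  unfold gv
  rw [if_neg hi, if_neg hj, if_neg hl]

theorem ev_psi {i j l : ℕ} (hij : i ≠ j) (hil : i ≠ l) (hjl : j ≠ l)
    (t : ℕ → MvPolynomial ℕ E) (ht : ∀ r, r ≠ i → r ≠ j → r ≠ l → t r = MvPolynomial.X r)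
    (p : MvPolynomial ℕ E) :
    ev3 (ι (t i))
      (ι (t j))
      (ι (t l)) (psi3 ι i j l p) =
    ι (MvPolynomial.bind₁ t p) := by
  have h : (ev3 (ι (t i))
      (ι (t j))
      (ι (t l))).comp (psi3 ι i j l) =
      ι.comp
        (MvPolynomial.bind₁ t : MvPolynomial ℕ E →ₐ[E] MvPolynomial ℕ E).toRingHom := by
    apply MvPolynomial.ringHom_ext
    · intro r
      rw [RingHom.comp_apply, RingHom.comp_apply, psi3, MvPolynomial.eval₂Hom_C]
      simp only [RingHom.comp_apply]
      rw [ev3_C]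
      congr 1
      exact (MvPolynomial.bind₁_C_right t r).symm
    · intro r
      have e2 : (MvPolynomial.bind₁ t : MvPolynomial ℕ E →ₐ[E] MvPolynomial ℕ E).toRingHom
          (MvPolynomial.X r) = t r := MvPolynomial.bind₁_X_right t r
      rw [RingHom.comp_apply, RingHom.comp_apply, psi3, MvPolynomial.eval₂Hom_X', e2]
      by_cases hi : r = i
      · rw [hi, gv_i, ev3_X]
      by_cases hj : r = j
      · rw [hj, gv_j ι hij, ev3_Y]
      by_cases hl : r = l
      · rw [hl, gv_l ι hil hjl, ev3_Z]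
      rw [gv_r ι hi hj hl, ev3_C, ht r hi hj hl]
  exact congrArg (fun φ : MvPolynomial ℕ E →+* K => φ p) h

/-- a polynomial which does not change at `x_i = 0` is free of `x_i` -/
theorem not_vars {i : ℕ} {p : MvPolynomial ℕ E}
    (h : MvPolynomial.bind₁ (Function.update MvPolynomial.X i 0) p = p) : i ∉ p.vars := by
  classical
  rw [← h]
  intro hi
  have h1 := MvPolynomial.vars_bind₁ (Function.update MvPolynomial.X i 0 :
    ℕ → MvPolynomial ℕ E) p hi
  rw [Finset.mem_biUnion] at h1
  obtain ⟨r, -, hr⟩ := h1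
  by_cases hri : r = i
  · rw [hri, Function.update_self, MvPolynomial.vars_0] at hr
    exact absurd hr (Finset.notMem_empty _)
  · rw [Function.update_of_ne hri, MvPolynomial.vars_X, Finset.mem_singleton] at hr
    exact hri hr.symm

theorem mono_ex {i j l : ℕ} (hij : i ≠ j) (hil : i ≠ l) (hjl : j ≠ l) (m : ℕ →₀ ℕ) :
    ∃ κ : K, (m.prod fun r k => gv ι i j l r ^ k) =
      C (C (C κ)) * (X ^ m i * (C X ^ m j * C (C X) ^ m l)) := by
  induction m using Finsupp.induction_linear with
  | zero => exact ⟨1, by simp⟩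
  | add m m' h h' =>
    obtain ⟨κ, hκ⟩ := h
    obtain ⟨κ', hκ'⟩ := h'
    refine ⟨κ * κ', ?_⟩
    rw [Finsupp.prod_add_index' (fun r => pow_zero _) (fun r a b => pow_add _ a b), hκ, hκ',
      Finsupp.add_apply, Finsupp.add_apply, Finsupp.add_apply, pow_add, pow_add, pow_add,
      C_mul, C_mul, C_mul]
    ring
  | single r k =>
    rw [Finsupp.prod_single_index (h := fun r k => gv ι i j l r ^ k) (pow_zero _)]
    by_cases hi : r = i
    · refine ⟨1, ?_⟩
      rw [hi, gv_i, Finsupp.single_eq_same, Finsupp.single_eq_of_ne hij.symm,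
        Finsupp.single_eq_of_ne hil.symm]
      simp
    by_cases hj : r = j
    · refine ⟨1, ?_⟩
      rw [hj, gv_j ι hij, Finsupp.single_eq_same, Finsupp.single_eq_of_ne hij,
        Finsupp.single_eq_of_ne hjl.symm]
      simp
    by_cases hl : r = l
    · refine ⟨1, ?_⟩
      rw [hl, gv_l ι hil hjl, Finsupp.single_eq_same, Finsupp.single_eq_of_ne hil,
        Finsupp.single_eq_of_ne hjl]
      simp
    · refine ⟨ι (MvPolynomial.X r) ^ k, ?_⟩
      rw [gv_r ι hi hj hl, Finsupp.single_eq_of_ne (Ne.symm hi),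
        Finsupp.single_eq_of_ne (Ne.symm hj), Finsupp.single_eq_of_ne (Ne.symm hl)]
      simp

theorem psi_mono {i j l : ℕ} (hij : i ≠ j) (hil : i ≠ l) (hjl : j ≠ l) (m : ℕ →₀ ℕ) (a : E) :
    ∃ κ : K, psi3 ι i j l (MvPolynomial.monomial m a) =
      C (C (C κ)) * (X ^ m i * (C X ^ m j * C (C X) ^ m l)) := by
  obtain ⟨κ, hκ⟩ := mono_ex ι hij hil hjl m
  refine ⟨ι (MvPolynomial.C a) * κ, ?_⟩
  rw [psi3, MvPolynomial.eval₂Hom_monomial, hκ, C_mul, C_mul, C_mul]
  simp only [RingHom.comp_apply, mul_assoc]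

/-- no monomial of `f` contains two variables which do not interact -/
theorem no_two [CharZero E] {f : MvPolynomial ℕ E} {i j : ℕ} (hij : i ≠ j)
    (h : j ∉ (pderiv i f).vars) {m : ℕ →₀ ℕ} (hm : m ∈ f.support) : m i = 0 ∨ m j = 0 := by
  classical
  by_contra hc
  push Not at hc
  have h2 : m - Finsupp.single i 1 + Finsupp.single i 1 = m := by
    apply tsub_add_cancel_of_le
    rw [Finsupp.single_le_iff]
    omega
  have h3 : m - Finsupp.single i 1 ∈ (pderiv i f).support := by
    rw [MvPolynomial.mem_support_iff, MvPolynomial.coeff_pderiv, h2]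
    exact mul_ne_zero (MvPolynomial.mem_support_iff.1 hm) (Nat.cast_add_one_ne_zero _)
  refine h ((MvPolynomial.mem_vars_iff_mem_support j).2 ⟨_, h3, ?_⟩)
  rw [Finsupp.mem_support_iff, Finsupp.tsub_apply, Finsupp.single_eq_of_ne hij.symm]
  exact hc.2

theorem psi_uvw {i j l : ℕ} (hij : i ≠ j) (hil : i ≠ l) (hjl : j ≠ l) {f : MvPolynomial ℕ E}
    (h : ∀ m ∈ f.support, (m i = 0 ∨ m j = 0) ∧ (m i = 0 ∨ m l = 0) ∧ (m j = 0 ∨ m l = 0)) :
    ∃ u v w, psi3 ι i j l f = uvw u v w := by
  classical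
  have key : ∀ s : Finset (ℕ →₀ ℕ), s ⊆ f.support →
      ∃ u v w, psi3 ι i j l (∑ m ∈ s, MvPolynomial.monomial m (f.coeff m)) = uvw u v w := by
    intro s
    induction s using Finset.induction_on with
    | empty =>
      intro _
      refine ⟨0, 0, 0, ?_⟩
      rw [Finset.sum_empty, map_zero]
      simp [uvw]
    | insert m s hms ih =>
      intro hs
      obtain ⟨u, v, w, huvw⟩ := ih fun x hx => hs (Finset.mem_insert_of_mem hx)
      obtain ⟨κ, hκ⟩ := psi_mono ι hij hil hjl m (f.coeff m)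
      have hm := h m (hs (Finset.mem_insert_self m s))
      rw [Finset.sum_insert hms, map_add, huvw, hκ]
      have hcase : (m j = 0 ∧ m l = 0) ∨ (m i = 0 ∧ m l = 0) ∨ (m i = 0 ∧ m j = 0) := by
        omega
      rcases hcase with ⟨h1, h2⟩ | ⟨h1, h2⟩ | ⟨h1, h2⟩
      · refine ⟨C κ * X ^ m i + u, v, w, ?_⟩
        rw [h1, h2]
        unfold uvw
        simp only [Polynomial.map_add, Polynomial.map_mul, Polynomial.map_pow, map_C, map_X,
          RingHom.comp_apply, pow_zero, mul_one]
        ring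
      · refine ⟨u, C κ * X ^ m j + v, w, ?_⟩
        rw [h1, h2]
        unfold uvw
        simp only [Polynomial.map_add, Polynomial.map_mul, Polynomial.map_pow, map_C, map_X,
          pow_zero, mul_one, one_mul, C_add, C_mul, C_pow]
        ring
      · refine ⟨u, v, C κ * X ^ m l + w, ?_⟩
        rw [h1, h2]
        unfold uvw
        simp only [pow_zero, one_mul, C_add, C_mul, C_pow]
        ring
  have := key f.support (Finset.Subset.refl _)
  rwa [← MvPolynomial.as_sum f] at this

theorem unit_free (hinj : Function.Injective ι) {i j l : ℕ} (hij : i ≠ j) (hil : i ≠ l) (hjl : j ≠ l) {g : MvPolynomial ℕ E}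
    (h : IsUnit (psi3 ι i j l g)) : i ∉ g.vars ∧ j ∉ g.vars ∧ l ∉ g.vars := by
  obtain ⟨r, hr, hr'⟩ := Polynomial.isUnit_iff.mp h
  obtain ⟨r2, hr2, rfl⟩ := Polynomial.isUnit_iff.mp hr
  obtain ⟨κ, -, rfl⟩ := Polynomial.isUnit_iff.mp hr2
  have h1 := ev_psi ι hij hil hjl MvPolynomial.X (fun _ _ _ _ => rfl) g
  rw [← hr', ev3_C] at h1
  have hup : ∀ s, s = i ∨ s = j ∨ s = l → s ∉ g.vars := by
    intro s hs
    refine not_vars ?_
    have h2 := ev_psi ι hij hil hjl (Function.update MvPolynomial.X s 0) (fun r h1 h2 h3 => by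
      refine Function.update_of_ne ?_ _ _
      rintro rfl
      rcases hs with h | h | h
      · exact h1 h
      · exact h2 h
      · exact h3 h) g
    rw [← hr', ev3_C, h1] at h2
    have h3 := hinj h2
    rw [← h3]
    exact (AlgHom.congr_fun MvPolynomial.bind₁_X_left g)
  exact ⟨hup i (Or.inl rfl), hup j (Or.inr (Or.inl rfl)), hup l (Or.inr (Or.inr rfl))⟩

theorem deg_pos (hinj : Function.Injective ι) {i j l : ℕ} (hij : i ≠ j) (hil : i ≠ l) (hjl : j ≠ l) {f : MvPolynomial ℕ E}
    {u v w : K[X]} (hf : psi3 ι i j l f = uvw u v w)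
    (hi : i ∈ f.vars) (hj : j ∈ f.vars) (hl : l ∈ f.vars) :
    0 < u.natDegree ∧ 0 < v.natDegree ∧ 0 < w.natDegree := by
  have h1 := ev_psi ι hij hil hjl MvPolynomial.X (fun _ _ _ _ => rfl) f
  have hX : MvPolynomial.bind₁ MvPolynomial.X f = f :=
    AlgHom.congr_fun MvPolynomial.bind₁_X_left f
  rw [hf, ev3_uvw, hX] at h1
  have hup : ∀ s, (s = i ∨ s = j ∨ s = l) → s ∈ f.vars →
      ev3 (ι ((Function.update MvPolynomial.X s 0 : ℕ → MvPolynomial ℕ E) i))
        (ι ((Function.update MvPolynomial.X s 0 : ℕ → MvPolynomial ℕ E) j))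
        (ι ((Function.update MvPolynomial.X s 0 : ℕ → MvPolynomial ℕ E) l)) (uvw u v w) ≠
      ι f := by
    intro s hs hsv he
    have h2 := ev_psi ι hij hil hjl (Function.update MvPolynomial.X s 0) (fun r h1 h2 h3 => by
      refine Function.update_of_ne ?_ _ _
      rintro rfl
      rcases hs with h | h | h
      · exact h1 h
      · exact h2 h
      · exact h3 h) f
    rw [hf, he] at h2
    exact not_vars (hinj h2).symm hsv
  refine ⟨?_, ?_, ?_⟩
  · by_contra hc
    have h0 : u.natDegree = 0 := by omega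
    apply hup i (Or.inl rfl) hi
    rw [ev3_uvw, Function.update_self, Function.update_of_ne hij.symm,
      Function.update_of_ne hil.symm, ← h1, eq_C_of_natDegree_eq_zero h0, eval_C, eval_C]
  · by_contra hc
    have h0 : v.natDegree = 0 := by omega
    apply hup j (Or.inr (Or.inl rfl)) hj
    rw [ev3_uvw, Function.update_self, Function.update_of_ne hij,
      Function.update_of_ne hjl.symm, ← h1, eq_C_of_natDegree_eq_zero h0, eval_C, eval_C]
  · by_contra hc
    have h0 : w.natDegree = 0 := by omega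
    apply hup l (Or.inr (Or.inr rfl)) hl
    rw [ev3_uvw, Function.update_self, Function.update_of_ne hil,
      Function.update_of_ne hjl, ← h1, eq_C_of_natDegree_eq_zero h0, eval_C, eval_C]

end psi3

theorem tvb (irf : IrfStmt) : TvbStmt := by
  intro E _ _ f g h i j l hij hil hjl hi hj hl hji hli hlj hfg
  have hinj : Function.Injective (algebraMap (MvPolynomial ℕ E)
      (FractionRing (MvPolynomial ℕ E))) := IsFractionRing.injective _ _
  have hcz : CharZero (FractionRing (MvPolynomial ℕ E)) :=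
    charZero_of_injective_algebraMap hinj
  obtain ⟨u, v, w, huvw⟩ := psi_uvw (algebraMap (MvPolynomial ℕ E)
    (FractionRing (MvPolynomial ℕ E))) (f := f) hij hil hjl fun m hm =>
    ⟨no_two hij hji hm, no_two hil hli hm, no_two hjl hlj hm⟩
  obtain ⟨hu, hv, hw⟩ := deg_pos _ hinj hij hil hjl huvw hi hj hl
  have hirr := irf _ u v w hu hv hw
  have hmul : uvw u v w = psi3 (algebraMap (MvPolynomial ℕ E)
      (FractionRing (MvPolynomial ℕ E))) i j l g * psi3 (algebraMap (MvPolynomial ℕ E)
      (FractionRing (MvPolynomial ℕ E))) i j l h := by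
    rw [← huvw, hfg, map_mul]
  rcases hirr.isUnit_or_isUnit hmul with h1 | h1
  · exact Or.inl (unit_free _ hinj hij hil hjl h1)
  · exact Or.inr (unit_free _ hinj hij hil hjl h1)

end Pool.Agent.PXE.H92
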